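import Pool.Agent.Helper93.Linf.Final
import Pool.Agent.Helper93.Linf.Stmt

/-!
# MP_2ac9e4_an, Q1 (Fremlin): a weak Borel probability on `l^infty` without norm Borel extension

The measure lives on indicators of subsets of the naturals.  For a random point `w` of a coin
space `Om` let `ys w` be the set of selected points; the measure of a weakly open set `W` is the
outer probability that the indicator of `ys w` lies in `W`.  That this is consistent (defines a
measure on the weak Borel sets) rests on the main lemma `Pool.Agent.Linf.main_lemma`; that it has
no extension follows because an extension would induce a probability on all subsets of the power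
set of the naturals vanishing on points, for which some non-null set `A` of `Om` indexes only null
unions of null sets (`Pool.Agent.Linf.total`).
-/

namespace Pool.Agent.Results.MP_2ac9e4_an.WeakBorelNoExtension

open MeasureTheory Pool.Agent.Linf

/-- There is a probability `μ` on the Borel sets of the weak topology of `l^infty` which is not the
restriction of any probability on the Borel sets of the norm topology. -/
theorem result : ∃ μ : BorelProb (weakTop LInf),
    ¬ ∃ ν : BorelProb (normTop LInf), Extends ν μ := by
  obtain ⟨μ, hμ1, hμ⟩ := ext_abstract ppi (fun W hW E0 hE0 hsub =>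
    inner_null _ (fun n => weak_nb (W n) (hW n)) E0 hE0 hsub)
  have hmeas : @Measurable _ _ (borel (WeakSpace ℝ LInf)) (@borel LInf (weakTop LInf))
      (toWeakSpace ℝ LInf).symm := by
    refine @Continuous.borel_measurable _ _ _ (weakTop LInf) _ ?_
    rw [weakTop_eq]
    exact continuous_induced_rng.2 continuous_id
  have hmeas' : @Measurable _ _ (@borel LInf (weakTop LInf)) (borel (WeakSpace ℝ LInf))
      (toWeakSpace ℝ LInf) := by
    refine @Continuous.borel_measurable _ _ (weakTop LInf) _ _ ?_
    rw [weakTop_eq]
    exact continuous_induced_dom
  refine ⟨⟨@Measure.map _ _ (borel (WeakSpace ℝ LInf)) (@borel LInf (weakTop LInf))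
    (toWeakSpace ℝ LInf).symm μ, ?_⟩, ?_⟩
  · rw [Measure.map_apply hmeas MeasurableSet.univ]
    exact hμ1
  · rintro ⟨ν, hν⟩
    refine no_extension μ hμ1 hμ ⟨ν.meas, ν.mass, fun A hA => ?_⟩
    have h := hν (toWeakSpace ℝ LInf ⁻¹' A) (hmeas' hA)
    rw [Measure.map_apply hmeas (hmeas' hA)] at h
    rw [h]
    congr 1

end Pool.Agent.Results.MP_2ac9e4_an.WeakBorelNoExtension
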